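import Pool.Agent.Q83.Wset.Top

open MeasureTheory Measure
open scoped ENNReal ComplexConjugate

namespace Pool.Agent.Results.MP_ba6fcd_an.NonTiling

variable {G : Type*} [CommGroup G] [TopologicalSpace G] [IsTopologicalGroup G]
  [LocallyCompactSpace G] [MeasurableSpace G] [BorelSpace G]

/-- The dual group carries its Borel sets. -/
noncomputable instance instMeasurableDual : MeasurableSpace (PontryaginDual G) := borel _

instance instBorelDual : BorelSpace (PontryaginDual G) := ⟨rfl⟩

/-- The Fourier transform of an integrable function (Haar measure on `G`, written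
multiplicatively). -/
noncomputable def ft (f : G → ℂ) (ξ : PontryaginDual G) : ℂ :=
  ∫ x, f x * conj ((ξ x : Circle) : ℂ) ∂(haar : Measure G)

/-- `ψ_{λ,a}(x) = Δ(a)^{1/2} ψ(a(x) - λ)`, for `b = (λ, a)`. -/
noncomputable def atom (ψ : G → ℂ) (b : G × (G ≃ₜ* G)) (x : G) : ℂ :=
  ((Real.sqrt (mulEquivHaarChar b.2 : ℝ) : ℝ) : ℂ) * ψ (b.2 x * b.1⁻¹)

/-- The family `f` is an orthogonal basis of `L^2(G)`. -/
def IsOrthogonalBasis {ι : Type*} (f : ι → G → ℂ) : Prop :=
  (∀ i, MemLp (f i) 2 haar ∧ ¬ f i =ᵐ[haar] 0) ∧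
  (∀ i j, i ≠ j → ∫ x, f i x * conj (f j x) ∂haar = 0) ∧
  ∀ g : G → ℂ, MemLp g 2 haar → (∀ i, ∫ x, g x * conj (f i x) ∂haar = 0) → g =ᵐ[haar] 0

/-- `Ω` is a wavelet set with respect to `B`. -/
def IsWaveletSet (Ω : Set (PontryaginDual G)) (B : Set (G × (G ≃ₜ* G))) : Prop :=
  MeasurableSet Ω ∧ 0 < (haar : Measure (PontryaginDual G)) Ω ∧
    (haar : Measure (PontryaginDual G)) Ω < ∞ ∧
    ∃ ψ : G → ℂ, Integrable ψ haar ∧ MemLp ψ 2 haar ∧
      (∀ ξ, ft ψ ξ = Ω.indicator (fun _ => 1) ξ) ∧
      IsOrthogonalBasis (fun b : B => atom ψ b)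

/-- `Ω` tiles the dual group additively. -/
def TilesAdditively (Ω : Set (PontryaginDual G)) : Prop :=
  ∃ T : Set (PontryaginDual G), T.Countable ∧
    ∀ᵐ ξ ∂(haar : Measure (PontryaginDual G)),
      ∑' t : T, Ω.indicator (fun _ => (1 : ℝ≥0∞)) (ξ * (t : PontryaginDual G)⁻¹) = 1

open Pool.Agent.Q83.Wset

/-- **Main result.** There are an infinite non-discrete second countable locally compact abelian
group `G` with a lattice, a countable `B ⊆ G × Aut(G)`, not a product, containing a pair `(e, a)`,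
with `Δ(a) ≠ 1` for all its dilations, and a wavelet set `Ω` with respect to `B` that does not tile
the dual group additively. -/
theorem result : ∃ (G : Type) (_ : CommGroup G) (_ : TopologicalSpace G)
    (_ : IsTopologicalGroup G) (_ : LocallyCompactSpace G) (_ : T2Space G)
    (_ : SecondCountableTopology G) (_ : MeasurableSpace G) (_ : BorelSpace G)
    (B : Set (G × (G ≃ₜ* G))) (Ω : Set (PontryaginDual G)),
    Infinite G ∧ ¬ DiscreteTopology G ∧
    (∃ Γ : Subgroup G, DiscreteTopology Γ ∧ CompactSpace (G ⧸ Γ)) ∧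
    B.Countable ∧ (∀ b ∈ B, mulEquivHaarChar b.2 ≠ 1) ∧ (∃ a, ((1 : G), a) ∈ B) ∧
    (¬ ∃ (Λ : Set G) (A : Set (G ≃ₜ* G)), B = Λ ×ˢ A) ∧
    IsWaveletSet Ω B ∧ ¬ TilesAdditively Ω := by
  refine ⟨M, inferInstance, inferInstance, inferInstance, inferInstance, inferInstance,
    inferInstance, inferInstance, inferInstance, B, ⋃ i, An 6 (ch (pv i)), inferInstance,
    not_discrete, ⟨Gam, Gam_discrete, Gam_cocompact⟩, B_countable, ?_, ⟨_, one_mem⟩, not_product,
    ?_, ?_⟩
  · rintro b ⟨⟨k, τ, r, j⟩, rfl⟩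
    exact modulus k τ
  · have hp0 : ∀ i, ch (pv i) ∈ An 0 1 := by
      intro i v hv
      rw [E_triv (pv i) 0 (fun j hj => ext0_out _ _ (by omega)) hv]
      rfl
    have hp : ∀ i j : Fin 6, i ≠ j → ∃ v ∈ cs 6 1, ch (pv i) v ≠ ch (pv j) v := by
      intro i j hij
      by_contra hcon
      push Not at hcon
      apply hij
      apply P_inj
      · have := hcon (em 0) (fun i hi => by rw [cm_em, if_neg (by omega)]; rfl)
        rw [ch_em, ch_em, pv_zero, pv_zero] at this
        exact ZMod.injective_toCircle this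
      · have := hcon (em 1) (fun i hi => by rw [cm_em, if_neg (by omega)]; rfl)
        rw [ch_em, ch_em, pv_one, pv_one] at this
        exact ZMod.injective_toCircle this
    have hm := (no_tile (haar : Measure (PontryaginDual M)) (fun i => ch (pv i)) hp0 hp).1
    refine ⟨MeasurableSet.iUnion fun i => An_meas _ _, ?_, ?_, psi haar, ?_, psi_memLp haar 2,
      psi_ft haar, ?_, ?_, ?_⟩
    · refine lt_of_lt_of_eq ?_ hm.symm
      have := An_pos (haar : Measure (PontryaginDual M)) 6 1
      positivity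
    · refine lt_of_eq_of_lt hm ?_
      exact ENNReal.mul_lt_top (by simp) (An_finite (haar : Measure (PontryaginDual M)) 6 1)
    · exact memLp_one_iff_integrable.1 (psi_memLp haar 1)
    · rintro ⟨_, ⟨⟨k, τ, r, j⟩, rfl⟩⟩
      refine ⟨(psi_at_memLp haar k τ (lam k r j) 2).const_mul _, fun h => ?_⟩
      apply psi_at_ne haar k τ (lam k r j)
      have hs : ((Real.sqrt (mulEquivHaarChar (au k τ) : ℝ) : ℝ) : ℂ) ≠ 0 := by
        have := mulEquivHaarChar_pos (au k τ)
        have h2 : (0 : ℝ) < mulEquivHaarChar (au k τ) := by exact_mod_cast this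
        exact_mod_cast (Real.sqrt_pos.2 h2).ne'
      filter_upwards [h] with z hz
      exact (mul_eq_zero.1 hz).resolve_left hs
    · rintro ⟨_, ⟨⟨k, τ, r, j⟩, rfl⟩⟩ ⟨_, ⟨⟨k', τ', r', j'⟩, rfl⟩⟩ hne
      have hin : ∫ z, psi haar (au k τ z * (lam k r j)⁻¹)
          * conj (psi haar (au k' τ' z * (lam k' r' j')⁻¹)) ∂(haar : Measure M) = 0 := by
        by_cases hk : k = k' ∧ (τ : ℤ →₀ ZMod 3) = τ'
        · obtain ⟨rfl, hτ⟩ := hk
          obtain rfl : τ = τ' := Subtype.ext hτ
          refine orth_same haar k τ _ _ (lam_orth k r r' j j' ?_)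
          intro h
          apply hne
          apply Subtype.ext
          exact Prod.ext h rfl
        · exact orth_ne haar k k' τ τ' _ _ hk
      have : ∀ z, atom (psi haar) (lam k r j, au k τ) z
          * conj (atom (psi haar) (lam k' r' j', au k' τ') z)
          = (((Real.sqrt (mulEquivHaarChar (au k τ) : ℝ) : ℝ) : ℂ)
            * conj ((Real.sqrt (mulEquivHaarChar (au k' τ') : ℝ) : ℝ) : ℂ))
            * (psi haar (au k τ z * (lam k r j)⁻¹)
              * conj (psi haar (au k' τ' z * (lam k' r' j')⁻¹))) := by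
        intro z
        unfold atom
        rw [map_mul]
        ring
      show ∫ z, atom (psi haar) (lam k r j, au k τ) z
          * conj (atom (psi haar) (lam k' r' j', au k' τ') z) ∂(haar : Measure M) = 0
      simp only [this]
      rw [integral_const_mul, hin, mul_zero]
    · intro g hg hz
      apply complete haar hg
      intro k τ r j
      have h1 := hz ⟨(lam k r j, au k τ), ⟨⟨k, τ, r, j⟩, rfl⟩⟩
      have hs : ((Real.sqrt (mulEquivHaarChar (au k τ) : ℝ) : ℝ) : ℂ) ≠ 0 := by
        have := mulEquivHaarChar_pos (au k τ)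
        have h2 : (0 : ℝ) < mulEquivHaarChar (au k τ) := by exact_mod_cast this
        exact_mod_cast (Real.sqrt_pos.2 h2).ne'
      have h2 : ∀ z, g z * conj (atom (psi haar) (lam k r j, au k τ) z)
          = conj (((Real.sqrt (mulEquivHaarChar (au k τ) : ℝ) : ℝ) : ℂ))
            * (g z * conj (psi haar (au k τ z * (lam k r j)⁻¹))) := by
        intro z
        unfold atom
        rw [map_mul]
        ring
      have h3 : ∫ z, g z * conj (atom (psi haar) (lam k r j, au k τ) z) ∂(haar : Measure M) = 0 := h1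
      simp only [h2] at h3
      rw [integral_const_mul] at h3
      refine (mul_eq_zero.1 h3).resolve_left ?_
      intro h0
      exact hs ((map_eq_zero _).1 h0)
  · rintro ⟨T, hT, hae⟩
    have hp0 : ∀ i, ch (pv i) ∈ An 0 1 := by
      intro i v hv
      rw [E_triv (pv i) 0 (fun j hj => ext0_out _ _ (by omega)) hv]
      rfl
    have hp : ∀ i j : Fin 6, i ≠ j → ∃ v ∈ cs 6 1, ch (pv i) v ≠ ch (pv j) v := by
      intro i j hij
      by_contra hcon
      push Not at hcon
      apply hij
      apply P_inj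
      · have := hcon (em 0) (fun i hi => by rw [cm_em, if_neg (by omega)]; rfl)
        rw [ch_em, ch_em, pv_zero, pv_zero] at this
        exact ZMod.injective_toCircle this
      · have := hcon (em 1) (fun i hi => by rw [cm_em, if_neg (by omega)]; rfl)
        rw [ch_em, ch_em, pv_one, pv_one] at this
        exact ZMod.injective_toCircle this
    exact (no_tile (haar : Measure (PontryaginDual M)) (fun i => ch (pv i)) hp0 hp).2 T hT hae

end Pool.Agent.Results.MP_ba6fcd_an.NonTiling
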